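import Pool.Agent.RS.StmtsT

/-!
# Squad RS, rows NIV and NDR
-/

set_option autoImplicit false

namespace Pool.Agent.RS.H72

open Pool.Agent.RS

theorem anti {B : Type} [CommRing B] (P : ℕ → Subring B) (r : ℕ)
    (h : ∀ l < r, P (l + 1) ≤ P l) (l m : ℕ) (h1 : l ≤ m) (h2 : m ≤ r) : P m ≤ P l := by
  induction m, h1 using Nat.le_induction with
  | base => exact le_refl _
  | succ m hm ih => exact (h m (by omega)).trans (ih (by omega))

theorem niv : NivStmt := by
  intro B K _ _ _ _ _ P q r hP f hf hf0 w hw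
  obtain ⟨s, a, u, hu, hw⟩ := hw
  refine ⟨s, a, fun l => f * u l, ?_, ?_⟩
  · intro l hl
    obtain ⟨h1, α, hα, β, hβ, h2, h3⟩ := hu l hl
    have hfl : f ∈ P l := anti P r hP l r hl.le le_rfl hf
    have hfl1 : f ∈ P (l + 1) := anti P r hP (l + 1) r hl le_rfl hf
    have e : f * α * q l + β * (f * u l) = f * (α * q l + β * u l) := by ring
    refine ⟨(P l).mul_mem hfl h1, f * α, (P l).mul_mem hfl hα, β, hβ, ?_, ?_⟩
    · rw [e]
      exact (P (l + 1)).mul_mem hfl1 h2
    · rw [e]
      exact mul_ne_zero hf0 h3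
  · rw [hw, Finset.sum_div]
    refine Finset.sum_congr rfl fun l _ => ?_
    rw [div_div, ← map_mul]
    congr 2
    ring

theorem good_sq {B : Type} [CommRing B] [IsDomain B] {P P' : Subring B} {q u : B} (hq : q ∈ P)
    (h : Good P P' q u) : Good P P' q (u * u) := by
  obtain ⟨h1, α, hα, β, hβ, h2, h3⟩ := h
  have e : (α * α * q + α * β * u + α * β * u) * q + β * β * (u * u) =
      (α * q + β * u) * (α * q + β * u) := by ring
  refine ⟨P.mul_mem h1 h1, α * α * q + α * β * u + α * β * u, ?_, β * β, P.mul_mem hβ hβ, ?_, ?_⟩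
  · exact P.add_mem (P.add_mem (P.mul_mem (P.mul_mem hα hα) hq) (P.mul_mem (P.mul_mem hα hβ) h1))
      (P.mul_mem (P.mul_mem hα hβ) h1)
  · rw [e]
    exact P'.mul_mem h2 h2
  · rw [e]
    exact mul_ne_zero h3 h3

theorem der_div {B K : Type} [CommRing B] [Field K] [Algebra B K] (D : B → B) (D' : K →+ K)
    (h1 : ∀ b, D' (algebraMap B K b) = algebraMap B K (D b))
    (h2 : ∀ x y, D' (x * y) = x * D' y + y * D' x) (a v : B) (hv : algebraMap B K v ≠ 0) :
    D' (algebraMap B K a / algebraMap B K v) =
      algebraMap B K (D a * v - a * D v) / algebraMap B K (v * v) := by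
  have e : algebraMap B K a = algebraMap B K a / algebraMap B K v * algebraMap B K v :=
    (div_mul_cancel₀ _ hv).symm
  have e2 : algebraMap B K (D a) = algebraMap B K a / algebraMap B K v * algebraMap B K (D v) +
      algebraMap B K v * D' (algebraMap B K a / algebraMap B K v) := by
    rw [← h1 a, ← h1 v, ← h2]
    exact congrArg D' e
  have e3 : algebraMap B K v * D' (algebraMap B K a / algebraMap B K v) =
      algebraMap B K (D a) - algebraMap B K a / algebraMap B K v * algebraMap B K (D v) := by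
    rw [e2]
    ring
  rw [map_sub, map_mul, map_mul, map_mul, eq_div_iff (mul_ne_zero hv hv)]
  have e4 : D' (algebraMap B K a / algebraMap B K v) * (algebraMap B K v * algebraMap B K v) =
      algebraMap B K v * D' (algebraMap B K a / algebraMap B K v) * algebraMap B K v := by ring
  rw [e4, e3, sub_mul]
  field_simp

theorem ndr (nmd : NmdStmt) (ntm : NtmStmt) : NdrStmt := by
  intro k B _ _ _ _ D D' h1 h2 P q r hP w hw
  have hinj : Function.Injective (algebraMap B (FractionRing B)) :=
    IsFractionRing.injective B (FractionRing B)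
  obtain ⟨hz, hadd, -, -⟩ := nmd B (FractionRing B) hinj P q r hP
  obtain ⟨s, a, u, hu, rfl⟩ := hw
  rw [map_sum]
  refine Finset.sum_induction _ (fun w => InN P q r w) hadd hz ?_
  intro l hl
  rw [Finset.mem_range] at hl
  by_cases hv : (∏ i ∈ Finset.range l, q i) ^ s l * u l = 0
  · rw [hv, map_zero, div_zero, map_zero]
    exact hz
  · have hv' : algebraMap B (FractionRing B) ((∏ i ∈ Finset.range l, q i) ^ s l * u l) ≠ 0 := by
      intro h
      exact hv (hinj (by rw [h, map_zero]))
    rw [der_div D D' h1 h2 _ _ hv']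
    have e : (∏ i ∈ Finset.range l, q i) ^ s l * u l * ((∏ i ∈ Finset.range l, q i) ^ s l * u l) =
        (∏ i ∈ Finset.range l, q i) ^ (2 * s l) * (u l * u l) := by ring
    rw [e]
    exact ntm B (FractionRing B) P q r l (2 * s l) _ (u l * u l) hl
      (good_sq (hP l hl).1 (hu l hl))

end Pool.Agent.RS.H72
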